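import Mathlib

set_option autoImplicit false

namespace Pool.Agent.Results.MP_e3e024_co.Counter

/-- The `l`-th xor-power of the Kneser graph KG(n,k). -/
def xorPow (l n k : ℕ) : SimpleGraph (Fin l → {X : Finset (Fin n) // X.card = k}) where
  Adj X Y := X ≠ Y ∧ Odd (Finset.univ.filter (fun i : Fin l => Disjoint (X i).1 (Y i).1)).card
  symm := ⟨by
    rintro X Y ⟨h1, h2⟩
    refine ⟨h1.symm, ?_⟩
    simpa only [disjoint_comm] using h2⟩
  loopless := ⟨fun X h => h.1 rfl⟩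

/-- the clique number f_l(n,k) -/
noncomputable def f (l n k : ℕ) : ℕ := (xorPow l n k).cliqueNum

section
variable {G : Type} [AddCommGroup G]

/-- the linear forms used in block `i`, slot `j` -/
def frm (i : Fin 5) (j : ℕ) (x : G × G × G) : G :=
  if i = 0 then (if j = 1 then x.2.1 else x.1)
  else if i = 1 then (if j = 1 then x.2.2 else x.1 + x.2.1)
  else if i = 2 then (if j = 1 then x.2.2 else if j = 2 then x.1 + x.2.2 else x.1)
  else if i = 3 then (if j = 1 then x.1 + x.2.1 else if j = 2 then x.1 + x.2.1 + x.2.2 else x.2.1)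
  else (if j = 1 then x.1 + x.2.1 + x.2.2 else x.1 + x.2.2)

lemma frm_sub (i : Fin 5) (j : ℕ) (x y : G × G × G) : frm i j (x - y) = frm i j x - frm i j y := by
  unfold frm
  simp only [Prod.fst_sub, Prod.snd_sub]
  split_ifs <;> abel

open Classical in
lemma parity (h2 : ∀ a : G, a + a = 0) {k : ℕ} (hk : 3 ≤ k) (d : G × G × G) (hd : d ≠ 0) :
    Odd (Finset.univ.filter (fun i : Fin 5 => ∀ j : Fin k, frm i j.val d ≠ 0)).card := by
  obtain ⟨a, b, c⟩ := d
  have key : ∀ (i : Fin 5), (∀ j : Fin k, frm i j.val (a, b, c) ≠ 0) ↔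
      (frm i 0 (a, b, c) ≠ 0 ∧ frm i 1 (a, b, c) ≠ 0 ∧ frm i 2 (a, b, c) ≠ 0) := by
    intro i
    constructor
    · intro h
      exact ⟨h ⟨0, by omega⟩, h ⟨1, by omega⟩, h ⟨2, by omega⟩⟩
    · rintro ⟨h0, h1, h2⟩ j
      by_cases e1 : j.val = 1
      · rw [e1]; exact h1
      by_cases e2 : j.val = 2
      · rw [e2]; exact h2
      have : frm i j.val (a, b, c) = frm i 0 (a, b, c) := by
        simp [frm, e1, e2]
      rw [this]; exact h0
  have tri : ∀ u v w : G, u + v = w → ((u = 0 → v = 0 → w = 0) ∧ (u = 0 → w = 0 → v = 0) ∧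
      (v = 0 → w = 0 → u = 0)) := by
    intro u v w h
    refine ⟨fun h1 h2 => by rw [← h, h1, h2, add_zero], fun h1 h2 => ?_, fun h1 h2 => ?_⟩
    · rw [h1, zero_add] at h; rw [h, h2]
    · rw [h1, add_zero] at h; rw [h, h2]
  have t1 := tri a b (a + b) rfl
  have t2 := tri a c (a + c) rfl
  have t3 := tri b (a + c) (a + b + c) (by abel)
  have t4 := tri (a + b) c (a + b + c) rfl
  have t5 := tri b c (b + c) rfl
  have t6 := tri (a + b) (a + c) (b + c) (by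
    have := h2 a
    calc a + b + (a + c) = (a + a) + (b + c) := by abel
      _ = b + c := by rw [this, zero_add])
  have t7 := tri a (b + c) (a + b + c) (by abel)
  have hd' : ¬ (a = 0 ∧ b = 0 ∧ c = 0) := by
    rintro ⟨rfl, rfl, rfl⟩
    exact hd rfl
  simp only [key]
  rw [Finset.card_filter, Fin.sum_univ_five]
  have e0 : (frm (0 : Fin 5) 0 (a, b, c) ≠ 0 ∧ frm (0 : Fin 5) 1 (a, b, c) ≠ 0 ∧
      frm (0 : Fin 5) 2 (a, b, c) ≠ 0) ↔ (a ≠ 0 ∧ b ≠ 0) := by simp [frm]; tauto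
  have e1 : (frm (1 : Fin 5) 0 (a, b, c) ≠ 0 ∧ frm (1 : Fin 5) 1 (a, b, c) ≠ 0 ∧
      frm (1 : Fin 5) 2 (a, b, c) ≠ 0) ↔ (a + b ≠ 0 ∧ c ≠ 0) := by simp [frm]; tauto
  have e2 : (frm (2 : Fin 5) 0 (a, b, c) ≠ 0 ∧ frm (2 : Fin 5) 1 (a, b, c) ≠ 0 ∧
      frm (2 : Fin 5) 2 (a, b, c) ≠ 0) ↔ (a ≠ 0 ∧ c ≠ 0 ∧ a + c ≠ 0) := by simp [frm]
  have e3 : (frm (3 : Fin 5) 0 (a, b, c) ≠ 0 ∧ frm (3 : Fin 5) 1 (a, b, c) ≠ 0 ∧
      frm (3 : Fin 5) 2 (a, b, c) ≠ 0) ↔ (b ≠ 0 ∧ a + b ≠ 0 ∧ a + b + c ≠ 0) := by simp [frm]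
  have e4 : (frm (4 : Fin 5) 0 (a, b, c) ≠ 0 ∧ frm (4 : Fin 5) 1 (a, b, c) ≠ 0 ∧
      frm (4 : Fin 5) 2 (a, b, c) ≠ 0) ↔ (a + c ≠ 0 ∧ a + b + c ≠ 0) := by simp [frm]; tauto
  simp only [e0, e1, e2, e3, e4]
  generalize a + b + c = w7 at *
  generalize a + b = w3 at *
  generalize a + c = w5 at *
  generalize b + c = w6 at *
  by_cases p1 : a = 0 <;> by_cases p2 : b = 0 <;> by_cases p3 : w3 = 0 <;> by_cases p4 : c = 0 <;>
    by_cases p5 : w5 = 0 <;> by_cases p6 : w6 = 0 <;> by_cases p7 : w7 = 0 <;>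
    simp only [p1, p2, p3, p4, p5, p6, p7, ne_eq, not_true_eq_false, not_false_eq_true, and_self,
      and_true, true_and, and_false, false_and, if_true, if_false, forall_const, imp_false,
      IsEmpty.forall_iff, implies_true] at * <;> decide

end

lemma lower (k n s : ℕ) (hk : 3 ≤ k) (hn : k * 2 ^ s ≤ n) : (2 ^ s) ^ 3 ≤ f 5 n k := by
  classical
  let G := Fin s → ZMod 2
  have h2 : ∀ a : G, a + a = 0 := fun a => funext fun i => CharTwo.add_self_eq_zero (a i)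
  have hcard : Fintype.card (Fin k × G) ≤ Fintype.card (Fin n) := by
    simp only [G, Fintype.card_prod, Fintype.card_fin, Fintype.card_fun, ZMod.card]
    exact hn
  obtain ⟨ι⟩ := Function.Embedding.nonempty_of_card_le hcard
  let emb : Fin 5 → G × G × G → Fin k ↪ Fin n := fun i x =>
    ⟨fun j => ι (j, frm i j.val x), fun j j' h => (Prod.ext_iff.1 (ι.injective h)).1⟩
  let X : G × G × G → Fin 5 → {X : Finset (Fin n) // X.card = k} := fun x i =>
    ⟨Finset.univ.map (emb i x), by simp⟩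
  have hdis : ∀ x y i, Disjoint (X x i).1 (X y i).1 ↔ ∀ j : Fin k, frm i j.val (x - y) ≠ 0 := by
    intro x y i
    rw [Finset.disjoint_left]
    constructor
    · intro h j hj
      rw [frm_sub, sub_eq_zero] at hj
      refine h (a := ι (j, frm i j.val x)) (Finset.mem_map.2 ⟨j, Finset.mem_univ _, rfl⟩)
        (Finset.mem_map.2 ⟨j, Finset.mem_univ _, ?_⟩)
      show ι (j, frm i j.val y) = _
      rw [hj]
    · intro h a ha hb
      obtain ⟨j, _, rfl⟩ := Finset.mem_map.1 ha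
      obtain ⟨j', _, hj⟩ := Finset.mem_map.1 hb
      have := Prod.ext_iff.1 (ι.injective hj)
      simp only at this
      obtain ⟨rfl, h3⟩ := this
      apply h j'
      rw [frm_sub, sub_eq_zero, h3]
  have hodd : ∀ x y, x ≠ y →
      Odd (Finset.univ.filter (fun i : Fin 5 => Disjoint (X x i).1 (X y i).1)).card := by
    intro x y hxy
    have := parity h2 hk (x - y) (sub_ne_zero.2 hxy)
    convert this using 3
    exact hdis x y _
  have hne : ∀ x y, x ≠ y → X x ≠ X y := by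
    intro x y hxy h
    obtain ⟨i, hi⟩ := Finset.card_pos.1 (hodd x y hxy).pos
    have h1 := (Finset.mem_filter.1 hi).2
    rw [h, disjoint_self] at h1
    have h3 := (X y i).2
    rw [h1] at h3
    simp at h3
    omega
  have hinj : Function.Injective X := fun x y h => by
    by_contra hxy
    exact hne x y hxy h
  have hcl : (xorPow 5 n k).IsClique (Finset.univ.image X : Finset _) := by
    intro A hA B hB hAB
    obtain ⟨x, _, rfl⟩ := Finset.mem_image.1 (Finset.mem_coe.1 hA)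
    obtain ⟨y, _, rfl⟩ := Finset.mem_image.1 (Finset.mem_coe.1 hB)
    exact ⟨hAB, hodd x y (fun h => hAB (h ▸ rfl))⟩
  have := hcl.card_le_cliqueNum
  rw [Finset.card_image_of_injective _ hinj] at this
  simp only [G, Finset.card_univ, Fintype.card_prod, Fintype.card_fun, ZMod.card,
    Fintype.card_fin] at this
  unfold f
  calc (2 ^ s) ^ 3 = 2 ^ s * (2 ^ s * 2 ^ s) := by ring
    _ ≤ _ := this

lemma cube (k n : ℕ) (hk : 3 ≤ k) (hn : k ≤ n) : n ^ 3 ≤ (2 * k) ^ 3 * f 5 n k := by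
  have hq : n / k ≠ 0 := (Nat.div_pos hn (by omega)).ne'
  have h1 := Nat.pow_log_le_self 2 hq
  have h2 := Nat.lt_pow_succ_log_self (b := 2) (by norm_num) (n / k)
  generalize Nat.log 2 (n / k) = s at h1 h2
  have h3 : k * 2 ^ s ≤ n := (Nat.mul_le_mul_left k h1).trans (Nat.mul_div_le n k)
  have h4 : n ≤ 2 * k * 2 ^ s := by
    have h5 : n < k * (n / k + 1) := Nat.lt_mul_div_succ n (by omega)
    have h6 : k * (n / k + 1) ≤ k * 2 ^ (s + 1) := Nat.mul_le_mul_left k h2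
    rw [pow_succ] at h6
    nlinarith
  calc n ^ 3 ≤ (2 * k * 2 ^ s) ^ 3 := Nat.pow_le_pow_left h4 3
    _ = (2 * k) ^ 3 * (2 ^ s) ^ 3 := by ring
    _ ≤ _ := Nat.mul_le_mul_left _ (lower k n s hk h3)

theorem result :
    ∃ l : ℕ, 1 ≤ l ∧ ∀ k : ℕ, 3 ≤ k → ∃ c : ℝ, 0 < c ∧ ∀ n : ℕ, k ≤ n →
      c * (n : ℝ) ^ (Nat.log 2 (l + 1) + 1) ≤ (f l n k : ℝ) := by
  refine ⟨5, by norm_num, fun k hk => ?_⟩
  have hk0 : (0 : ℝ) < (2 * (k : ℝ)) ^ 3 := by
    have : (0 : ℝ) < k := by exact_mod_cast (by omega : 0 < k)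
    positivity
  refine ⟨1 / (2 * (k : ℝ)) ^ 3, by positivity, fun n hn => ?_⟩
  have hl : Nat.log 2 (5 + 1) + 1 = 3 := by norm_num
  have h3 : (n : ℝ) ^ 3 ≤ (2 * (k : ℝ)) ^ 3 * (f 5 n k : ℝ) := by
    exact_mod_cast cube k n hk hn
  rw [hl, one_div, inv_mul_le_iff₀ hk0]
  exact h3

end Pool.Agent.Results.MP_e3e024_co.Counter
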